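import Pool.Agent.Y593.LG.HopfE
import Pool.Agent.Y593.LC.Stmt

set_option autoImplicit false
set_option linter.unusedSectionVars false

/-!
# The properties used in the statement about the Hopf lcs structure on `S^(n-1) × S¹`, `n` even

`S^(n-1) × S¹` is realised as the quotient of `ℝⁿ ∖ 0` by `y ~ 2y`; the diffeomorphism sends the class of
`y` to `(y/|y|, log |y| / log 2 mod 1)`.
-/
open scoped ContDiff Manifold
open Pool.Agent.H660R3 Real

namespace Pool.Agent.Y593.LG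

section
variable {n : ℕ} {M : Type} [TopologicalSpace M] [ChartedSpace (EuclideanSpace ℝ (Fin n)) M]

/-- `pr` exhibits the manifold `M` as `(ℝⁿ ∖ 0) / (y ~ 2y)`: its restriction to `ℝⁿ ∖ 0` is a quotient map,
two points have the same image iff they differ by a power of two, and the inverses of the charts of `M`
are restrictions of `pr` (the value of `pr` at `0` plays no role). -/
structure IsHopfManifold (pr : EuclideanSpace ℝ (Fin n) → M) : Prop where
  quotient : Topology.IsQuotientMap (fun y : {y : EuclideanSpace ℝ (Fin n) // y ≠ 0} => pr y)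
  eq_iff : ∀ a b, a ≠ 0 → b ≠ 0 → (pr a = pr b ↔ ∃ m : ℤ, b = (2 : ℝ) ^ m • a)
  chart : ∀ (x₀ : M), ∀ y ∈ (chartAt (EuclideanSpace ℝ (Fin n)) x₀).target,
    y ≠ 0 ∧ (chartAt (EuclideanSpace ℝ (Fin n)) x₀).symm y = pr y

/-- In every chart, `b` is the pullback under `y ↦ y/|y|` of the form `⟨Jx, dx⟩ = Σ s_i x_i dx_{σ i}`,
whose restriction to the unit sphere is the standard contact form, with the Hopf flow `x ↦ e^{tJ} x` as
Reeb flow. -/
def IsHopfForm (S : CS n) (b : OneForm n M) : Prop :=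
  ∀ (x₀ : M), ∀ y ∈ (chartAt (EuclideanSpace ℝ (Fin n)) x₀).target, ∀ u,
    coordOne b.val x₀ y u =
      jp S (‖y‖⁻¹ • y) (fderiv ℝ (fun z : EuclideanSpace ℝ (Fin n) => ‖z‖⁻¹ • z) y u)

/-- In every chart, `a` is the differential of `θ = log |y| / log 2`. -/
def IsAngularForm (a : OneForm n M) : Prop :=
  ∀ (x₀ : M), ∀ y ∈ (chartAt (EuclideanSpace ℝ (Fin n)) x₀).target, ∀ u,
    coordOne a.val x₀ y u =
      fderiv ℝ (fun z : EuclideanSpace ℝ (Fin n) => Real.log ‖z‖ / Real.log 2) y u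

/-- The field `b` of linear forms on `ℝⁿ ∖ 0` is the pullback of the 1-form `β` of `M`. -/
def IsLift (b : EuclideanSpace ℝ (Fin n) → EuclideanSpace ℝ (Fin n) → ℝ) (β : OneForm n M) : Prop :=
  (∀ (m : ℤ) (y : EuclideanSpace ℝ (Fin n)), y ≠ 0 → ∀ u,
    b ((2 : ℝ) ^ m • y) ((2 : ℝ) ^ m • u) = b y u) ∧
  ∀ (x₀ : M), ∀ y ∈ (chartAt (EuclideanSpace ℝ (Fin n)) x₀).target, ∀ u,
    coordOne β.val x₀ y u = b y u

/-- On the shell `1 ≤ |y| ≤ 2` all the derivatives of order at most `k` of the components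
`b(u) - b'(u)`, `|u| ≤ 1`, have norm at most `δ`. -/
def ShellClose (k : ℕ) (δ : ℝ)
    (b b' : EuclideanSpace ℝ (Fin n) → EuclideanSpace ℝ (Fin n) → ℝ) : Prop :=
  ∀ y : EuclideanSpace ℝ (Fin n), 1 ≤ ‖y‖ → ‖y‖ ≤ 2 → ∀ u : EuclideanSpace ℝ (Fin n), ‖u‖ ≤ 1 →
    ∀ j ≤ k, ‖iteratedFDeriv ℝ j (fun z => b z u - b' z u) y‖ ≤ δ

/-- `lam ε` tends to `lam 0` in `C^k` for every `k`, as `ε` decreases to `0`: the pullbacks to `ℝⁿ ∖ 0`
do, on the shell `1 ≤ |y| ≤ 2` (which is compact and is mapped onto `M`). -/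
def TendsOnShell (lam : ℝ → OneForm n M) : Prop :=
  ∃ b : ℝ → EuclideanSpace ℝ (Fin n) → EuclideanSpace ℝ (Fin n) → ℝ, (∀ ε, IsLift (b ε) (lam ε)) ∧
    ∀ (k : ℕ) (δ : ℝ), 0 < δ → ∃ ε₁ : ℝ, 0 < ε₁ ∧ ∀ ε, 0 < ε → ε < ε₁ → ShellClose k δ (b ε) (b 0)

end

/-! ### Proofs -/

open LC.HM HE LG.B LG.A

theorem exists_CS (m : ℕ) : Nonempty (CS (2 * m)) := by
  refine ⟨⟨fun i => if h : (i : ℕ) % 2 = 0 then ⟨i + 1, by omega⟩ else ⟨i - 1, by omega⟩,
    fun i => if (i : ℕ) % 2 = 0 then 1 else -1, fun i => ?_, fun i => ?_, fun i => ?_⟩⟩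
  · by_cases h : (i : ℕ) % 2 = 0
    · have h2 : ¬ ((i : ℕ) + 1) % 2 = 0 := by omega
      simp [h, h2]
    · have h2 : ((i : ℕ) - 1) % 2 = 0 := by omega
      have h3 : 1 ≤ (i : ℕ) := by omega
      simp only [h, dif_neg, not_false_iff, h2, dif_pos]
      apply Fin.ext
      simp
      omega
  · by_cases h : (i : ℕ) % 2 = 0 <;> simp [h]
  · by_cases h : (i : ℕ) % 2 = 0
    · have h2 : ¬ ((i : ℕ) + 1) % 2 = 0 := by omega
      simp [h, h2]
    · have h2 : ((i : ℕ) - 1) % 2 = 0 := by omega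
      simp [h, h2]

theorem nonempty_Om {n : ℕ} (hn : 0 < n) : Nonempty (Om n) :=
  ⟨⟨EuclideanSpace.single (⟨0, hn⟩ : Fin n) (1 : ℝ), by
    intro h
    have h0 : (EuclideanSpace.single (⟨0, hn⟩ : Fin n) (1 : ℝ) : EE n) = 0 := h
    have := congrArg (fun v : EE n => v ⟨0, hn⟩) h0
    simp at this⟩⟩

variable {n : ℕ}

theorem n2_eq (z : EE n) : n2 z = ‖z‖ ^ 2 := by
  rw [EuclideanSpace.real_norm_sq_eq]
  rfl

theorem jp_smul_left (S : CS n) (c : ℝ) (y u : EE n) : jp S (c • y) u = c * jp S y u := by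
  unfold jp
  rw [Finset.mul_sum]
  exact Finset.sum_congr rfl fun i _ => by rw [PiLp.smul_apply, smul_eq_mul]; ring

variable [Nonempty (Om n)]

theorem isHopfManifold : IsHopfManifold (n := n) (M := Hopf n) prj where
  quotient := by
    have h1 : Topology.IsQuotientMap (LC.HM.mk (n := n)) := isQuotientMap_quotient_mk'
    have h2 : (fun x : Om n => prj (x : EE n)) = LC.HM.mk := funext fun x => prj_val x
    have h3 : Topology.IsQuotientMap (fun x : Om n => prj (x : EE n)) := by rw [h2]; exact h1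
    exact h3
  eq_iff := by
    intro a b ha hb
    rw [prj_eq_iff ha hb]
    exact exists_congr fun m => eq_comm
  chart := by
    intro x₀ y hy
    have h := target_ne (chart_mem_atlas (EE n) x₀) hy
    exact ⟨h, atlas_symm (chart_mem_atlas (EE n) x₀) h⟩

theorem isClosed_hopf (hn : 1 < n) : LC.IsClosedManifold n (Hopf n) :=
  ⟨inferInstance, inferInstance, inferInstance, inferInstance, connected_of hn⟩

theorem isHopfForm (hn : 0 < n) (S : CS n) : IsHopfForm S (lam hn S 0) := by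
  intro x₀ y hy u
  have h0 := target_ne (chart_mem_atlas (EE n) x₀) hy
  unfold lam
  rw [coordOne_descend x₀ h0]
  have hn : ‖y‖ ≠ 0 := norm_ne_zero_iff.2 h0
  have h1 : DifferentiableAt ℝ (fun z : EE n => ‖z‖⁻¹) y :=
    ((contDiffAt_norm ℝ h0 (n := 1)).differentiableAt (by simp)).inv hn
  have h2 : HasFDerivAt (fun z : EE n => ‖z‖⁻¹ • z) _ y :=
    h1.hasFDerivAt.smul (hasFDerivAt_id y)
  rw [h2.fderiv]
  have h3 : ∀ (D : EE n →L[ℝ] ℝ), (‖y‖⁻¹ • ContinuousLinearMap.id ℝ (EE n) +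
      D.smulRight y) u = ‖y‖⁻¹ • u + D u • y := fun D => by simp
  have h4 : jp S y y = 0 := Y74.HGE.jp_self S y
  have h5 : ∀ c : ℝ, jp S (‖y‖⁻¹ • y) (‖y‖⁻¹ • u + c • y) = jp S y u / ‖y‖ ^ 2 := by
    intro c
    rw [jp_smul_left, HE.jp_add, HE.jp_smul, HE.jp_smul, h4]
    field_simp
    ring
  have h6 := h5 (fderiv ℝ (fun z : EE n => ‖z‖⁻¹) y u)
  rw [← h3] at h6
  change bl S 0 y u = _
  refine Eq.trans ?_ h6.symm
  simp [bl, n2_eq]

theorem isAngularForm : IsAngularForm (alp (n := n)) := by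
  intro x₀ y hy u
  have h0 := target_ne (chart_mem_atlas (EE n) x₀) hy
  unfold alp
  rw [coordOne_descend x₀ h0]
  have h1 : (fun z : EE n => Real.log ‖z‖ / Real.log 2) = th := by
    funext z
    unfold th
    rw [n2_eq, Real.log_pow]
    push_cast
    rw [mul_div_mul_left _ _ two_ne_zero]
  obtain ⟨D, hD, hD2⟩ := th_hasFDerivAt h0
  rw [h1, hD.fderiv, hD2]

theorem isConformal_hopf (hn : 0 < n) (S : CS n) (ε : ℝ) (p : Hopf n) :
    ∃ c : ℝ, 0 < c ∧ ∀ u, (lam hn S ε).val p u = c * (lam hn S 0).val p u := by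
  refine ⟨exp (ε * WW (chartAt (EE n) p p)), exp_pos _, fun u => ?_⟩
  change bl S ε (chartAt (EE n) p p) u = _ * bl S 0 (chartAt (EE n) p p) u
  simp [bl]

theorem tendsOnShell (hn : 0 < n) (S : CS n) : TendsOnShell (lam hn S) := by
  refine ⟨bl S, fun ε => ⟨fun m y hy u => bl_scale S ε m hy u, fun x₀ y hy u => ?_⟩, fun k δ hδ => ?_⟩
  · unfold lam
    rw [coordOne_descend x₀ (target_ne (chart_mem_atlas (EE n) x₀) hy)]
  · obtain ⟨r, hr, h3⟩ := Metric.eventually_nhds_iff.1 (bl_close hn S k hδ)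
    refine ⟨r, hr, fun ε h1 h2 => ?_⟩
    exact h3 (by rw [Real.dist_eq, sub_zero, abs_of_pos h1]; exact h2)

theorem exists_eps_hopf (hn : 0 < n) (S : CS n) : ∃ ε₀ : ℝ, 0 < ε₀ ∧
    (∀ ε, 0 ≤ ε → ε < ε₀ → IsExactLcs (lam hn S ε) (alp (n := n))) ∧
    ∀ ε, 0 < ε → ε < ε₀ → ∀ o : ℝ → Hopf n, ¬ IsReebCurve (lam hn S ε) o := by
  obtain ⟨K, hK1, hK⟩ := ee_bounded hn
  have hK0 : 0 < 1 + K := by linarith
  have h100 : 0 < 100 * (1 + K) := by linarith
  refine ⟨1 / (100 * (1 + K)), by positivity, fun ε h1 h2 => ?_, fun ε h1 h2 o => ?_⟩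
  · rw [lt_div_iff₀ h100] at h2
    refine isExactLcs hn S h1 hK ?_
    have : 0 ≤ ε * (1 + K) := by positivity
    linarith
  · rw [lt_div_iff₀ h100] at h2
    refine no_reeb hn S h1 ?_ o
    nlinarith

end Pool.Agent.Y593.LG
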