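import Mathlib
import Pool.Agent.H660R3.Torus
set_option autoImplicit false
open scoped ContDiff

/-!
# Scale invariant forms on `ℝⁿ ∖ 0`, `n` even
-/
namespace Pool.Agent.Y593.LG

open Pool.Agent.H660R3 Real

/-- smooth staircase: `Es N (t+1) = Es N t + 1`, locally constant except near the half-integers. -/
noncomputable def Es (N : ℕ) (t : ℝ) : ℝ :=
  ⌊t⌋ + Real.smoothTransition (2 * N * (Int.fract t - 1 / 2) + 1 / 2)

/-- its derivative -/
noncomputable def ee (N : ℕ) (t : ℝ) : ℝ := deriv (Es N) t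

/-- the sawtooth -/
noncomputable def hs (N : ℕ) (t : ℝ) : ℝ := t - Es N t

/-- a complex structure of `ℝⁿ` permuting the coordinates up to sign: `J e_i = s_i e_{σ i}` -/
structure CS (n : ℕ) where
  /-- the partner of a coordinate -/
  σ : Fin n → Fin n
  /-- the sign -/
  s : Fin n → ℝ
  inv : ∀ i, σ (σ i) = i
  sq : ∀ i, s i ^ 2 = 1
  neg : ∀ i, s (σ i) = - s i

variable {n : ℕ}

/-- `|y|²` -/
noncomputable def n2 (y : EE n) : ℝ := ∑ i : Fin n, y i ^ 2

/-- `⟨y, u⟩` -/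
noncomputable def ip (y u : EE n) : ℝ := ∑ i : Fin n, y i * u i

/-- `⟨Jy, u⟩` -/
noncomputable def jp (S : CS n) (y u : EE n) : ℝ := ∑ i : Fin n, S.s i * y i * u (S.σ i)

/-- `θ = log |y| / log 2` -/
noncomputable def th (y : EE n) : ℝ := Real.log (n2 y) / (2 * Real.log 2)

/-- the function `F` -/
noncomputable def WW (y : EE n) : ℝ := ∑ i : Fin n, y i ^ 2 / n2 y * hs n (th y - (i : ℕ) / n)

/-- its differential -/
noncomputable def dW (y u : EE n) : ℝ := ∑ i : Fin n,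
  ((2 * y i * u i / n2 y - 2 * y i ^ 2 * ip y u / n2 y ^ 2) * hs n (th y - (i : ℕ) / n) +
    y i ^ 2 / n2 y * ((1 - ee n (th y - (i : ℕ) / n)) * (ip y u / (Real.log 2 * n2 y))))

/-- `λ_ε = e^{εF} ⟨Jy, dy⟩ / |y|²` -/
noncomputable def bl (S : CS n) (ε : ℝ) (y u : EE n) : ℝ := exp (ε * WW y) * (jp S y u / n2 y)

/-- `α = d log |y| / log 2` -/
noncomputable def al (y u : EE n) : ℝ := ip y u / (Real.log 2 * n2 y)

/-- `d(⟨Jy, dy⟩ / |y|²)(u, v)` -/
noncomputable def d0 (S : CS n) (y u v : EE n) : ℝ :=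
  2 * jp S u v / n2 y - 2 * (ip y u * jp S y v - ip y v * jp S y u) / n2 y ^ 2

/-- the `i`-th term -/
noncomputable def tm (i : Fin n) (y : EE n) : ℝ := y i ^ 2 / n2 y * ee n (th y - (i : ℕ) / n)

end Pool.Agent.Y593.LG
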