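import Pool.Agent.Y77.HGA
set_option autoImplicit false
open Set Filter Topology
open scoped ContDiff

/-! The staircase (helper77) -/
namespace Pool.Agent.Y593.LG.A

open Pool.Agent.H660R3 Real LG

theorem Es_smooth {N : ℕ} (hN : 0 < N) : ContDiff ℝ ∞ (Es N) := Y77.HGA.Es_smooth hN
theorem hs_smooth {N : ℕ} (hN : 0 < N) : ContDiff ℝ ∞ (hs N) := Y77.HGA.hs_smooth hN
theorem hasDerivAt_hs {N : ℕ} (hN : 0 < N) (t : ℝ) : HasDerivAt (hs N) (1 - ee N t) t :=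
  Y77.HGA.hasDerivAt_hs hN t
theorem hs_add_int (N : ℕ) (t : ℝ) (m : ℤ) : hs N (t + m) = hs N t := Y77.HGA.hs_add_int N t m
theorem hs_bound (N : ℕ) (t : ℝ) : |hs N t| ≤ 1 := Y77.HGA.hs_bound N t
theorem ee_add_int {N : ℕ} (hN : 0 < N) (t : ℝ) (m : ℤ) : ee N (t + m) = ee N t :=
  Y77.HGA.ee_add_int hN t m
theorem ee_continuous {N : ℕ} (hN : 0 < N) : Continuous (ee N) := Y77.HGA.ee_continuous hN
theorem ee_bounded {N : ℕ} (hN : 0 < N) : ∃ K : ℝ, 1 ≤ K ∧ ∀ t, |ee N t| ≤ K := Y77.HGA.ee_bounded hN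
/-- the supports of the translates by `i/N` are disjoint. -/
theorem ee_disjoint {N : ℕ} (hN : 0 < N) (t : ℝ) (i j : Fin N) (hi : ee N (t - (i : ℕ) / N) ≠ 0)
    (hj : ee N (t - (j : ℕ) / N) ≠ 0) : i = j := Y77.HGA.ee_disjoint hN t i j hi hj

end Pool.Agent.Y593.LG.A
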