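import Pool.Agent.Y576.HGB
import Pool.Agent.Y780.HGC
import Pool.Agent.Y217.HGD
import Pool.Agent.Y74.HGE
set_option autoImplicit false
open Set Filter Topology
open scoped ContDiff

namespace Pool.Agent.Y593.LG.B

open Pool.Agent.H660R3 Real LG

variable {n : ℕ}

/-! HG-B (calculus) -/
theorem n2_pos {y : EE n} (h : y ≠ 0) : 0 < n2 y :=
  Y576.HGB.n2_pos h
theorem n2_smul (c : ℝ) (y : EE n) : n2 (c • y) = c ^ 2 * n2 y :=
  Y576.HGB.n2_smul c y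
theorem th_scale (m : ℤ) {y : EE n} (h : y ≠ 0) : th ((2 : ℝ) ^ m • y) = th y + m :=
  Y576.HGB.th_scale m h
theorem bl_scale (S : CS n) (ε : ℝ) (m : ℤ) {y : EE n} (h : y ≠ 0) (u : EE n) :
    bl S ε ((2 : ℝ) ^ m • y) ((2 : ℝ) ^ m • u) = bl S ε y u :=
  Y576.HGB.bl_scale S ε m h u
theorem al_scale (m : ℤ) {y : EE n} (h : y ≠ 0) (u : EE n) :
    al ((2 : ℝ) ^ m • y) ((2 : ℝ) ^ m • u) = al y u :=
  Y576.HGB.al_scale m h u
theorem th_hasFDerivAt {y : EE n} (h : y ≠ 0) :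
    ∃ D : EE n →L[ℝ] ℝ, HasFDerivAt th D y ∧ ∀ u, D u = al y u :=
  Y576.HGB.th_hasFDerivAt h
theorem WW_hasFDerivAt (hn : 0 < n) {y : EE n} (h : y ≠ 0) :
    ∃ D : EE n →L[ℝ] ℝ, HasFDerivAt WW D y ∧ ∀ u, D u = dW y u :=
  Y576.HGB.WW_hasFDerivAt hn h
theorem bl_d (hn : 0 < n) (S : CS n) (ε : ℝ) {y : EE n} (h : y ≠ 0) (u v : EE n) :
    fderiv ℝ (fun z => bl S ε z v) y u - fderiv ℝ (fun z => bl S ε z u) y v =
      exp (ε * WW y) * (ε * (dW y u * (jp S y v / n2 y) - dW y v * (jp S y u / n2 y)) +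
        d0 S y u v) :=
  Y576.HGB.bl_d hn S ε h u v
theorem al_d {y : EE n} (h : y ≠ 0) (u v : EE n) :
    fderiv ℝ (fun z => al z v) y u - fderiv ℝ (fun z => al z u) y v = 0 :=
  Y576.HGB.al_d h u v

/-! HG-C (smoothness, closeness) -/
theorem n2_smooth : ContDiff ℝ ∞ (n2 (n := n)) :=
  Y780.HGC.n2_smooth
theorem bl_contDiffAt (hn : 0 < n) (S : CS n) {y : EE n} (h : y ≠ 0) (ε : ℝ) (u : EE n) :
    ContDiffAt ℝ ∞ (fun z => bl S ε z u) y :=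
  Y780.HGC.bl_contDiffAt hn S h ε u
theorem al_contDiffAt {y : EE n} (h : y ≠ 0) (u : EE n) : ContDiffAt ℝ ∞ (fun z => al z u) y :=
  Y780.HGC.al_contDiffAt h u
theorem al_cont {y : EE n} (h : y ≠ 0) (u : EE n) :
    ContinuousAt (fun p : EE n × EE n => al p.1 p.2) (y, u) :=
  Y780.HGC.al_cont h u
theorem bl_close (hn : 0 < n) (S : CS n) (k : ℕ) {δ : ℝ} (hδ : 0 < δ) : ∀ᶠ ε in 𝓝 (0 : ℝ),
    ∀ y : EE n, 1 ≤ ‖y‖ → ‖y‖ ≤ 2 → ∀ u : EE n, ‖u‖ ≤ 1 → ∀ j ≤ k,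
      ‖iteratedFDeriv ℝ j (fun z => bl S ε z u - bl S 0 z u) y‖ ≤ δ :=
  Y780.HGC.bl_close hn S k hδ

/-! HG-D (non-degeneracy, algebra) -/
theorem nondeg (S : CS n) {ε K : ℝ} (hε : 0 ≤ ε) (hK : ∀ t, |ee n t| ≤ K) (hεK : ε * (1 + K) < 1)
    {y : EE n} (hy : y ≠ 0) (u : EE n)
    (h : ∀ v, ε * (dW y u * (jp S y v / n2 y) - dW y v * (jp S y u / n2 y)) + d0 S y u v -
      (al y u * (jp S y v / n2 y) - al y v * (jp S y u / n2 y)) = 0) : u = 0 :=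
  Y217.HGD.nondeg S hε hK hεK hy u h

/-! HG-E (Reeb condition, algebra) -/
theorem reeb_sum (S : CS n) {ε : ℝ} (hε : 0 < ε) {y : EE n} (hy : y ≠ 0) (u : EE n)
    (hu : 0 < jp S y u)
    (h : ∀ v, ε * (dW y u * (jp S y v / n2 y) - dW y v * (jp S y u / n2 y)) + d0 S y u v = 0) :
    ∑ i : Fin n, tm i y = 1 :=
  Y74.HGE.reeb_sum S hε hy u hu h

theorem reeb_turn (S : CS n) {ε : ℝ} (hε : 0 < ε) (hεK : 100 * ε < 1)
    {y : EE n} (hy : y ≠ 0) (u : EE n) (hu : 0 < jp S y u)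
    (h : ∀ v, ε * (dW y u * (jp S y v / n2 y) - dW y v * (jp S y u / n2 y)) + d0 S y u v = 0)
    (i : Fin n) (hi : tm i y = 1) :
    0 < S.s i * (y i * u (S.σ i) - y (S.σ i) * u i) :=
  Y74.HGE.reeb_turn S hε hεK hy u hu h i hi

end Pool.Agent.Y593.LG.B
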