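import Mathlib
import Pool.Agent.Y593.LC.HopfF
import Pool.Agent.Y593.LG.PB
set_option autoImplicit false
set_option synthInstance.maxHeartbeats 400000
set_option linter.unusedSectionVars false
open Set Filter Topology
open scoped ContDiff Manifold

/-!
# Exact lcs structures close to the Hopf structure, without Reeb curves
-/
namespace Pool.Agent.Y593.LG.HE

open Pool.Agent.H660R3 LC.HM Real LG LG.A LG.B

variable {n : ℕ} [Nonempty (Om n)]

theorem jp_add (S : CS n) (q u v : EE n) : jp S q (u + v) = jp S q u + jp S q v := by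
  unfold jp
  rw [← Finset.sum_add_distrib]
  exact Finset.sum_congr rfl fun i _ => by rw [PiLp.add_apply]; ring

theorem jp_smul (S : CS n) (c : ℝ) (q u : EE n) : jp S q (c • u) = c * jp S q u := by
  unfold jp
  rw [Finset.mul_sum]
  exact Finset.sum_congr rfl fun i _ => by rw [PiLp.smul_apply, smul_eq_mul]; ring

theorem ip_add (q u v : EE n) : ip q (u + v) = ip q u + ip q v := by
  unfold ip
  rw [← Finset.sum_add_distrib]
  exact Finset.sum_congr rfl fun i _ => by rw [PiLp.add_apply]; ring

theorem ip_smul (c : ℝ) (q u : EE n) : ip q (c • u) = c * ip q u := by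
  unfold ip
  rw [Finset.mul_sum]
  exact Finset.sum_congr rfl fun i _ => by rw [PiLp.smul_apply, smul_eq_mul]; ring

theorem bl_lin (S : CS n) (ε : ℝ) (q : EE n) : IsLinearMap ℝ (bl S ε q) where
  map_add u v := by simp only [bl, jp_add]; ring
  map_smul c u := by simp only [bl, jp_smul, smul_eq_mul]; ring

theorem al_lin (q : EE n) : IsLinearMap ℝ (al q) where
  map_add u v := by simp only [al, ip_add]; ring
  map_smul c u := by simp only [al, ip_smul, smul_eq_mul]; ring

/-- the form `λ_ε` on the Hopf manifold. -/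
noncomputable def lam (hn : 0 < n) (S : CS n) (ε : ℝ) : OneForm n (Hopf n) :=
  descendOne (bl S ε) (fun m _ hy u => bl_scale S ε m hy u) (bl_lin S ε)
    (fun _ hy u => bl_contDiffAt hn S hy ε u)

/-- the form `α` on the Hopf manifold. -/
noncomputable def alp : OneForm n (Hopf n) :=
  descendOne al (fun m _ hy u => al_scale m hy u) al_lin (fun _ hy u => al_contDiffAt hy u)

theorem lam_d (hn : 0 < n) (S : CS n) (ε : ℝ) (p : Hopf n) (u v : EE n) : (lam hn S ε).d p u v =
    exp (ε * WW (chartAt (EE n) p p)) * (ε * (dW (chartAt (EE n) p p) u *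
      (jp S (chartAt (EE n) p p) v / n2 (chartAt (EE n) p p)) - dW (chartAt (EE n) p p) v *
      (jp S (chartAt (EE n) p p) u / n2 (chartAt (EE n) p p))) + d0 S (chartAt (EE n) p p) u v) := by
  unfold lam
  rw [descendOne_d, bl_d hn S ε (chart_ne p)]

theorem alp_d (p : Hopf n) (u v : EE n) : alp.d p u v = 0 := by
  unfold alp
  rw [descendOne_d, al_d (chart_ne p)]

theorem isExactLcs (hn : 0 < n) (S : CS n) {ε K : ℝ} (hε : 0 ≤ ε) (hK : ∀ t, |ee n t| ≤ K)
    (hεK : ε * (1 + K) < 1) : IsExactLcs (lam hn S ε) (alp (n := n)) where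
  closed := alp_d
  nondeg p u h := by
    refine nondeg S hε hK hεK (chart_ne p) u fun v => ?_
    set q := chartAt (EE n) p p with hq
    have h1 := h v
    unfold lcsForm at h1
    rw [lam_d] at h1
    have ha : ∀ w : EE n, alp.val p w = al q w := fun w => rfl
    have hl : ∀ w : EE n, (lam hn S ε).val p w = exp (ε * WW q) * (jp S q w / n2 q) := fun w => rfl
    rw [ha, ha, hl, hl, ← hq] at h1
    have hE : 0 < exp (ε * WW q) := exp_pos _
    have h2 : exp (ε * WW q) * (ε * (dW q u * (jp S q v / n2 q) - dW q v * (jp S q u / n2 q)) +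
      d0 S q u v - (al q u * (jp S q v / n2 q) - al q v * (jp S q u / n2 q))) = 0 := by
      linear_combination h1
    rcases mul_eq_zero.1 h2 with h3 | h3
    · exact absurd h3 hE.ne'
    · exact h3

/-- coordinate functional. -/
noncomputable def pj (i : Fin n) : EE n →L[ℝ] ℝ := EuclideanSpace.proj i

@[simp] theorem pj_apply (i : Fin n) (v : EE n) : pj i v = v i := rfl

theorem alp_rational : IsRationalForm (alp (n := n)) := by
  intro c hc hper
  set a : ℝ → ℝ := fun t => al (inChart (n := n) c t t) (velocity (n := n) c t) with ha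
  have hne : ∀ t, (inChart (n := n) c t t) ≠ 0 := fun t => chart_ne (c t)
  have hac : Continuous a := form_continuous hc (fun m _ hy u => al_scale m hy u)
    (fun _ hy u => al_cont hy u)
  set P : EE n → ℂ := fun q => Complex.exp ((2 * π * th q : ℝ) * Complex.I) with hP
  have hPper : ∀ (m : ℤ) (y : EE n), y ≠ 0 → P ((2 : ℝ) ^ m • y) = P y := by
    intro m y hy
    simp only [hP]
    rw [Complex.exp_eq_exp_iff_exists_int]
    refine ⟨m, ?_⟩
    rw [th_scale m hy]
    push_cast
    ring
  set g : ℝ → ℂ := fun t => P (inChart (n := n) c t t) with hg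
  have hgd : ∀ t, HasDerivAt g (g t * ((2 * π : ℝ) * Complex.I) * (a t : ℂ)) t := by
    intro t
    obtain ⟨D, hD, hD2⟩ := th_hasFDerivAt (hne t)
    have h1 : HasFDerivAt (fun q : EE n => ((2 * π * th q : ℝ) : ℂ))
        (Complex.ofRealCLM ∘L ((2 * π) • D)) (inChart (n := n) c t t) :=
      Complex.ofRealCLM.hasFDerivAt.comp (inChart (n := n) c t t) (hD.const_mul (2 * π))
    have h2 := (h1.mul_const Complex.I).cexp
    have := hasDerivAt_inv hc hPper t h2
    refine this.congr_deriv ?_
    have h3 : D (velocity c t) = a t := hD2 _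
    simp [hg, hP, h3]
    ring
  set A : ℝ → ℝ := fun t => ∫ s in (0:ℝ)..t, a s with hA
  have hAd : ∀ t, HasDerivAt A (a t) t := fun t =>
    intervalIntegral.integral_hasDerivAt_right (hac.intervalIntegrable _ _)
      (hac.stronglyMeasurableAtFilter _ _) hac.continuousAt
  set G : ℝ → ℂ := fun t => g t * Complex.exp (-((2 * π : ℝ) * Complex.I) * (A t : ℂ)) with hG
  have hGd : ∀ t, HasDerivAt G 0 t := by
    intro t
    have h1 : HasDerivAt (fun t => ((A t : ℝ) : ℂ)) ((a t : ℝ) : ℂ) t := (hAd t).ofReal_comp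
    have h2 := (hgd t).mul ((h1.const_mul (-((2 * π : ℝ) * Complex.I))).cexp)
    refine h2.congr_deriv ?_
    ring
  have hGc : G 1 = G 0 := is_const_of_deriv_eq_zero (fun t => (hGd t).differentiableAt)
    (fun t => (hGd t).deriv) 1 0
  have hg1 : g 1 = g 0 := by
    have h1 := inChart_shift (n := n) hper 0 0
    have : g (0 + 1) = g 0 := by
      simp only [hg]; rw [h1]
    simpa using this
  have hg0 : g 0 ≠ 0 := Complex.exp_ne_zero _
  have hA0 : A 0 = 0 := by simp [hA]
  have h1 : Complex.exp (-((2 * π : ℝ) * Complex.I) * (A 1 : ℂ)) = 1 := by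
    simp only [hG, hg1, hA0] at hGc
    have := mul_left_cancel₀ hg0 hGc
    simpa using this
  rw [Complex.exp_eq_one_iff] at h1
  obtain ⟨N, hN⟩ := h1
  refine ⟨((-N : ℤ) : ℚ), ?_⟩
  have h2 : (A 1 : ℂ) = -(N : ℂ) := by
    have hpi : (π : ℂ) ≠ 0 := by exact_mod_cast pi_pos.ne'
    have h3 : (2 * (π : ℂ) * Complex.I) * ((A 1 : ℂ) + N) = 0 := by
      push_cast at hN
      linear_combination -hN
    rcases mul_eq_zero.1 h3 with h4 | h4
    · exfalso
      have := Complex.two_pi_I_ne_zero
      exact this h4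
    · linear_combination h4
  have h3 : A 1 = -(N : ℝ) := by exact_mod_cast h2
  change A 1 = _
  rw [h3]
  push_cast
  ring

/-! ### No Reeb curve -/

theorem tm_scale (hn : 0 < n) (i : Fin n) (m : ℤ) (y : EE n) (h : y ≠ 0) :
    tm i ((2 : ℝ) ^ m • y) = tm i y := by
  unfold tm
  have h1 : th y + m - (i : ℕ) / n = th y - (i : ℕ) / n + m := by ring
  rw [th_scale m h, n2_smul, h1, ee_add_int hn]
  have h2 := (n2_pos h).ne'
  have h3 := two_ne m
  simp only [PiLp.smul_apply, smul_eq_mul]
  field_simp

theorem tm_cont (hn : 0 < n) (i : Fin n) (y : EE n) (h : y ≠ 0) : ContinuousAt (tm i) y := by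
  have h1 := (n2_pos h).ne'
  obtain ⟨D, hD, -⟩ := th_hasFDerivAt h
  have h2 : ContinuousAt (fun y : EE n => th y - (i : ℕ) / n) y := hD.continuousAt.sub continuousAt_const
  have h3 : ContinuousAt (fun y : EE n => ee n (th y - (i : ℕ) / n)) y :=
    ContinuousAt.comp (f := fun y : EE n => th y - (i : ℕ) / n) (ee_continuous hn).continuousAt h2
  unfold tm
  exact ((((pj i).continuous.pow 2).continuousAt).div n2_smooth.continuous.continuousAt h1).mul h3

theorem tm_disj (hn : 0 < n) (q : EE n) (i j : Fin n) (hij : i ≠ j) : tm i q = 0 ∨ tm j q = 0 := by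
  by_contra hcon
  rw [not_or] at hcon
  apply hij
  apply ee_disjoint hn (th q)
  · intro h; apply hcon.1; simp [tm, h]
  · intro h; apply hcon.2; simp [tm, h]

theorem tm_01 (hn : 0 < n) {q : EE n} (hq : ∑ j : Fin n, tm j q = 1) (i : Fin n) : tm i q = 0 ∨ tm i q = 1 := by
  by_cases h : tm i q = 0
  · exact Or.inl h
  · right
    rw [Finset.sum_eq_single i] at hq
    · exact hq
    · intro j _ hj
      rcases tm_disj hn q i j (Ne.symm hj) with h2 | h2
      · exact absurd h2 h
      · exact h2
    · intro h2; exact absurd (Finset.mem_univ i) h2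

theorem exists_tm (hn : 0 < n) {q : EE n} (hq : ∑ j : Fin n, tm j q = 1) : ∃ i, tm i q = 1 := by
  by_contra hcon
  push Not at hcon
  have h1 : ∑ j : Fin n, tm j q = 0 :=
    Finset.sum_eq_zero fun j _ => (tm_01 hn hq j).resolve_right (hcon j)
  linarith

theorem no_reeb (hn : 0 < n) (S : CS n) {ε : ℝ} (hε : 0 < ε) (hεK : 100 * ε < 1)
    (o : ℝ → Hopf n) : ¬ IsReebCurve (lam hn S ε) o := by
  intro h
  have hne : ∀ t, (inChart (n := n) o t t) ≠ 0 := fun t => chart_ne (o t)
  have hpos : ∀ t, 0 < jp S (inChart (n := n) o t t) (velocity (n := n) o t) := by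
    intro t
    have h1 : 0 < exp (ε * WW (inChart (n := n) o t t)) *
      (jp S (inChart (n := n) o t t) (velocity (n := n) o t) / n2 (inChart (n := n) o t t)) := h.pos t
    have h2 := (mul_pos_iff_of_pos_left (exp_pos _)).1 h1
    have h3 := n2_pos (hne t)
    exact (div_pos_iff_of_pos_right h3).1 h2
  have hker : ∀ t v, ε * (dW (inChart (n := n) o t t) (velocity (n := n) o t) *
      (jp S (inChart (n := n) o t t) v / n2 (inChart (n := n) o t t)) -
      dW (inChart (n := n) o t t) v *
      (jp S (inChart (n := n) o t t) (velocity (n := n) o t) / n2 (inChart (n := n) o t t))) +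
      d0 S (inChart (n := n) o t t) (velocity (n := n) o t) v = 0 := by
    intro t v
    have h1 := h.kernel t v
    rw [lam_d] at h1
    rcases mul_eq_zero.1 h1 with h3 | h3
    · exact absurd h3 (exp_pos _).ne'
    · exact h3
  have hsum : ∀ t, ∑ j : Fin n, tm j (inChart (n := n) o t t) = 1 := fun t =>
    reeb_sum S hε (hne t) _ (hpos t) (hker t)
  -- a single index works for the whole curve
  obtain ⟨i, hi⟩ := exists_tm hn (hsum 0)
  have hcont : Continuous fun t => tm i (inChart (n := n) o t t) :=
    continuous_inv h.smooth (tm_scale hn i) (tm_cont hn i)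
  have hall : ∀ t, tm i (inChart (n := n) o t t) = 1 := by
    have hcl1 : IsClosed {t : ℝ | tm i (inChart (n := n) o t t) = 1} := isClosed_eq hcont continuous_const
    have hcl0 : IsClosed {t : ℝ | tm i (inChart (n := n) o t t) = 0} := isClosed_eq hcont continuous_const
    have hcompl : {t : ℝ | tm i (inChart (n := n) o t t) = 1} =
        {t : ℝ | tm i (inChart (n := n) o t t) = 0}ᶜ := by
      ext t
      rcases tm_01 hn (hsum t) i with h1 | h1
      · constructor
        · intro h2
          exfalso
          have h3 : tm i (inChart (n := n) o t t) = 1 := h2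
          rw [h1] at h3; norm_num at h3
        · intro h2; exact absurd h1 h2
      · constructor
        · intro _ h3
          have h4 : tm i (inChart (n := n) o t t) = 0 := h3
          rw [h1] at h4; norm_num at h4
        · intro _; exact h1
    have hop : IsOpen {t : ℝ | tm i (inChart (n := n) o t t) = 1} := by
      rw [hcompl]; exact hcl0.isOpen_compl
    have huniv : {t : ℝ | tm i (inChart (n := n) o t t) = 1} = univ :=
      IsClopen.eq_univ ⟨hcl1, hop⟩ ⟨0, hi⟩
    intro t
    have : t ∈ {t : ℝ | tm i (inChart (n := n) o t t) = 1} := by rw [huniv]; trivial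
    exact this
  have hB : ∀ t, (inChart (n := n) o t t) i ≠ 0 := by
    intro t h0
    have := hall t
    unfold tm at this
    rw [h0] at this
    norm_num at this
  -- the invariant function `y_{pa i} / y_i`
  set P : EE n → ℝ := fun q => q (S.σ i) * (q i)⁻¹ with hP
  have hPper : ∀ (m : ℤ) (y : EE n), y ≠ 0 → P ((2 : ℝ) ^ m • y) = P y := by
    intro m y _
    simp only [hP, PiLp.smul_apply, smul_eq_mul]
    rw [← div_eq_mul_inv, mul_div_mul_left _ _ (two_ne m), div_eq_mul_inv]
  have hV : ∀ t, HasDerivAt (fun s => P (inChart (n := n) o s s))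
      (((inChart (n := n) o t t) i * (velocity (n := n) o t) (S.σ i) -
        (inChart (n := n) o t t) (S.σ i) * (velocity (n := n) o t) i) / (inChart (n := n) o t t) i ^ 2) t := by
    intro t
    have h1 : HasFDerivAt (fun q : EE n => (q i)⁻¹) _ (inChart (n := n) o t t) :=
      (_root_.hasDerivAt_inv (hB t)).comp_hasFDerivAt (inChart (n := n) o t t)
        ((pj i).hasFDerivAt (x := (inChart (n := n) o t t)))
    have h2 : HasFDerivAt P _ (inChart (n := n) o t t) :=
      ((pj (S.σ i)).hasFDerivAt (x := (inChart (n := n) o t t))).mul h1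
    refine (hasDerivAt_inv h.smooth hPper t h2).congr_deriv ?_
    have := hB t
    simp
    field_simp
    ring
  have hper : P (inChart (n := n) o 0 0) = P (inChart (n := n) o 1 1) := by
    have := inChart_shift (n := n) h.periodic 0 0
    simp only [zero_add] at this
    rw [this]
  obtain ⟨ξ, -, hξ⟩ := exists_hasDerivAt_eq_zero (f := fun s => P (inChart (n := n) o s s))
    (a := 0) (b := 1) one_pos (fun s _ => (hV s).continuousAt.continuousWithinAt) hper
    (fun s _ => hV s)
  have hturn := reeb_turn S hε hεK (hne ξ) _ (hpos ξ) (hker ξ) i (hall ξ)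
  have h1 : (inChart (n := n) o ξ ξ) i ^ 2 ≠ 0 := pow_ne_zero 2 (hB ξ)
  have h2 : (inChart (n := n) o ξ ξ) i * (velocity (n := n) o ξ) (S.σ i) -
        (inChart (n := n) o ξ ξ) (S.σ i) * (velocity (n := n) o ξ) i = 0 := by
    rcases div_eq_zero_iff.1 hξ with h3 | h3
    · exact h3
    · exact absurd h3 h1
  rw [h2] at hturn
  simp at hturn

end Pool.Agent.Y593.LG.HE
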